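import Pool.Agent.Helper76.Q5P7.StC

/-!
# Levels `5 * 7^n`, module TYP: maps of the plane and their types

Adapted from `Pool/Agent/Helper75/TK7/M_TYPK7.lean`.
-/

set_option autoImplicit false

namespace Pool.Agent.Helper99.Q5P7

open Pool.Agent.Helper76.Q5P7
open Pool.Agent.Helper76.S7 (Pt trp ng dR Iv Kl Dv Ty)


private theorem unit7 {m : ℕ} (a : ℤ) (ha : ¬ (7 : ℤ) ∣ a) (z : ZMod (7 ^ m)) :
    IsUnit ((a : ZMod (7 ^ m)) + 7 * z) := by
  obtain ⟨k, rfl⟩ := ZMod.intCast_surjective z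
  have h7 : Prime (7 : ℤ) := by norm_num
  have h1 : IsCoprime (7 : ℤ) (a + 7 * k) := by
    refine (Irreducible.coprime_iff_not_dvd h7.irreducible).mpr fun h => ha ?_
    exact (dvd_add_left (dvd_mul_right 7 k)).mp h
  obtain ⟨u, v, huv⟩ := h1.pow_left (m := m)
  refine IsUnit.of_mul_eq_one ((v : ZMod (7 ^ m))) ?_
  have h2 := congrArg (Int.cast : ℤ → ZMod (7 ^ m)) huv
  push_cast at h2
  have h3 : (7 : ZMod (7 ^ m)) ^ m = 0 := by
    have := ZMod.natCast_self (7 ^ m)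
    push_cast at this
    exact this
  rw [h3] at h2
  linear_combination h2

private theorem unitA (μ : ℕ) {m : ℕ} (a c : ℤ) (ha : ¬ (7 : ℤ) ∣ a) (x : ZMod (7 ^ m)) :
    IsUnit ((a : ZMod (7 ^ m)) + 7 ^ (μ + 1) * c * x) := by
  have h := unit7 (m := m) a ha (7 ^ μ * c * x)
  have e : (a : ZMod (7 ^ m)) + 7 * (7 ^ μ * c * x) = (a : ZMod (7 ^ m)) + 7 ^ (μ + 1) * c * x := by
    ring
  rwa [e] at h

private theorem frac_eq {n : ℕ} {x y s t : ZMod n} (hs : IsUnit s) (ht : IsUnit t)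
    (h : x * t = y * s) : x * s⁻¹ = y * t⁻¹ := by
  have h1 := ZMod.mul_inv_of_unit s hs
  have h2 := ZMod.mul_inv_of_unit t ht
  linear_combination (x * s⁻¹) * (-h2) + (y * t⁻¹) * h1 + s⁻¹ * t⁻¹ * h

/-- The fraction in the definition of `trp`. -/
private noncomputable def mob (μ : ℕ) {m : ℕ} (a b c d : ℤ) (t : ZMod (7 ^ m)) : ZMod (7 ^ m) :=
  ((b : ZMod (7 ^ m)) + d * t) * ((a : ZMod (7 ^ m)) + 7 ^ (μ + 1) * c * t)⁻¹

private theorem trp_eq (μ : ℕ) {m : ℕ} (a b c d : ℤ) (p : Pt m) :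
    trp μ a b c d p = (mob μ a b c d p.1, mob μ d c b a p.2) := rfl

private theorem mob_mob (μ : ℕ) {m : ℕ} (a b c d a' b' c' d' : ℤ) (ha : ¬ (7 : ℤ) ∣ a)
    (ha' : ¬ (7 : ℤ) ∣ a') (hA : ¬ (7 : ℤ) ∣ a * a' + 7 ^ (μ + 1) * b * c') (t : ZMod (7 ^ m)) :
    mob μ a' b' c' d' (mob μ a b c d t) =
      mob μ (a * a' + 7 ^ (μ + 1) * b * c') (a * b' + b * d') (c * a' + d * c')
        (7 ^ (μ + 1) * c * b' + d * d') t := by
  have h1 := ZMod.mul_inv_of_unit _ (unitA μ a c ha t)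
  refine frac_eq (unitA μ a' c' ha' _) (unitA μ _ _ hA t) ?_
  unfold mob
  push_cast
  linear_combination (d' * ((b : ZMod (7 ^ m)) + d * t) * a' -
    b' * (7 ^ (μ + 1) * c' * ((b : ZMod (7 ^ m)) + d * t))) * h1

private theorem mob_id (μ : ℕ) {m : ℕ} (t : ZMod (7 ^ m)) : mob μ 1 0 0 1 t = t := by
  unfold mob
  simp

private theorem mob_arg_neg (μ : ℕ) {m : ℕ} (a b c d : ℤ) (t : ZMod (7 ^ m)) :
    mob μ a b c d (-t) = mob μ a b (-c) (-d) t := by
  unfold mob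
  push_cast
  ring_nf

private theorem dv_mob (μ : ℕ) {m : ℕ} (a b c d s : ℤ) (ha : ¬ (7 : ℤ) ∣ a)
    (hs : (7 : ℤ) ∣ a * d - 7 ^ (μ + 1) * b * c - s * a ^ 2) :
    Dv s (mob μ a b c d : ZMod (7 ^ m) → ZMod (7 ^ m)) := by
  intro i x x' hx
  obtain ⟨k, hk⟩ := hx
  obtain ⟨q, hq⟩ := hs
  have hq' := congrArg (Int.cast : ℤ → ZMod (7 ^ m)) hq
  push_cast at hq'
  have h := ZMod.mul_inv_of_unit _ (unitA μ a c ha x)
  have h' := ZMod.mul_inv_of_unit _ (unitA μ a c ha x')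
  unfold mob
  set v := ((a : ZMod (7 ^ m)) + 7 ^ (μ + 1) * c * x)⁻¹ with hv
  set v' := ((a : ZMod (7 ^ m)) + 7 ^ (μ + 1) * c * x')⁻¹ with hv'
  refine ⟨k * v * v' * (q - s * (7 ^ μ * c * x * a + 7 ^ μ * c * x' * a +
    7 ^ μ * 7 ^ (μ + 1) * c ^ 2 * x * x')), ?_⟩
  linear_combination (((b : ZMod (7 ^ m)) + d * x') * v' + s * (x - x')) * h +
    (-((b : ZMod (7 ^ m)) + d * x) * v +
      s * (x - x') * (((a : ZMod (7 ^ m)) + 7 ^ (μ + 1) * c * x) * v)) * h' +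
    v * v' * ((a * d - 7 ^ (μ + 1) * b * c) - s * (((a : ZMod (7 ^ m)) + 7 ^ (μ + 1) * c * x) *
      ((a : ZMod (7 ^ m)) + 7 ^ (μ + 1) * c * x'))) * hk + 7 ^ i * k * v * v' * hq'

private theorem dv_neg {m : ℕ} : Dv (-1) (fun x : ZMod (7 ^ m) => -x) := by
  intro i x x' _
  refine ⟨0, ?_⟩
  push_cast
  ring

private theorem ty0 {m : ℕ} (r : Pt m → Pt m) (μ : ℕ) (s s' : ℤ) (a b c d a' b' c' d' : ℤ)
    (ha : ¬ (7 : ℤ) ∣ a) (ha' : ¬ (7 : ℤ) ∣ a') (h1 : ¬ (7 : ℤ) ∣ s) (h2 : ¬ (7 : ℤ) ∣ s - 1)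
    (h3 : ¬ (7 : ℤ) ∣ s') (h4 : ¬ (7 : ℤ) ∣ s' - 1)
    (hs : (7 : ℤ) ∣ a * d - 7 ^ (μ + 1) * b * c - s * a ^ 2)
    (hs' : (7 : ℤ) ∣ a' * d' - 7 ^ (μ + 1) * b' * c' - s' * a' ^ 2)
    (h : ∀ p : Pt m, r p = (mob μ a b c d p.1, mob μ a' b' c' d' p.2)) : Ty 0 r :=
  Or.inl ⟨rfl, s, s', _, _, h1, h2, h3, h4, dv_mob μ a b c d s ha hs,
    dv_mob μ a' b' c' d' s' ha' hs', h⟩

private theorem ty1 {m : ℕ} (r : Pt m → Pt m) (μ : ℕ) (s s' : ℤ) (a b c d a' b' c' d' : ℤ)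
    (ha : ¬ (7 : ℤ) ∣ a) (ha' : ¬ (7 : ℤ) ∣ a') (h1 : ¬ (7 : ℤ) ∣ s) (h3 : ¬ (7 : ℤ) ∣ s')
    (hs : (7 : ℤ) ∣ a * d - 7 ^ (μ + 1) * b * c - s * a ^ 2)
    (hs' : (7 : ℤ) ∣ a' * d' - 7 ^ (μ + 1) * b' * c' - s' * a' ^ 2)
    (h : ∀ p : Pt m, r p = (mob μ a b c d p.2, mob μ a' b' c' d' p.1)) : Ty 1 r :=
  Or.inr ⟨rfl, s, s', _, _, h1, h3, dv_mob μ a b c d s ha hs, dv_mob μ a' b' c' d' s' ha' hs', h⟩

private theorem dR_eq (μ : ℕ) {m : ℕ} (p : Pt m) :
    dR μ p = (mob μ 1 (-1) 0 (-1) p.1, mob μ 1 0 1 (-1) p.2) := by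
  show (mob μ 1 (-1) 0 1 (-p.1), mob μ 1 0 (-1) 1 (-p.2)) = _
  rw [mob_arg_neg, mob_arg_neg]
  norm_num

private theorem dRdR (μ : ℕ) {m : ℕ} (p : Pt m) : dR μ (dR μ p) = p := by
  rw [dR_eq, dR_eq]
  refine Prod.ext ?_ ?_
  · show mob μ 1 (-1) 0 (-1) (mob μ 1 (-1) 0 (-1) p.1) = p.1
    rw [mob_mob _ _ _ _ _ _ _ _ _ (by norm_num) (by norm_num) (by norm_num)]
    norm_num [mob_id]
  · show mob μ 1 0 1 (-1) (mob μ 1 0 1 (-1) p.2) = p.2
    rw [mob_mob _ _ _ _ _ _ _ _ _ (by norm_num) (by norm_num) (by norm_num)]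
    norm_num [mob_id]

/-- Composition of two fractional linear maps, up to the scalar `k`. -/
private theorem mm (μ : ℕ) (k : ℤ) {m : ℕ} (a b c d a' b' c' d' A B C D : ℤ) (ha : ¬ (7 : ℤ) ∣ a)
    (ha' : ¬ (7 : ℤ) ∣ a') (hA : ¬ (7 : ℤ) ∣ A) (hk : ¬ (7 : ℤ) ∣ k)
    (h1 : a * a' + 7 ^ (μ + 1) * b * c' = k * A) (h2 : a * b' + b * d' = k * B)
    (h3 : c * a' + d * c' = k * C) (h4 : 7 ^ (μ + 1) * c * b' + d * d' = k * D) (t : ZMod (7 ^ m)) :
    mob μ a' b' c' d' (mob μ a b c d t) = mob μ A B C D t := by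
  have h5 : Prime (7 : ℤ) := by norm_num
  have hkA : ¬ (7 : ℤ) ∣ k * A := fun h => (h5.dvd_or_dvd h).elim hk hA
  rw [mob_mob μ a b c d a' b' c' d' ha ha' (by rw [h1]; exact hkA) t, h1, h2, h3, h4]
  refine frac_eq (unitA μ _ _ hkA t) (unitA μ A C hA t) ?_
  push_cast
  ring


private theorem swH_eq0 {m : ℕ} (p : Pt m) :
    swH p = (mob 0 5 0 0 1 p.2, mob 0 1 0 0 5 p.1) := by
  unfold swH mob
  simp

private theorem swH_eq1 {m : ℕ} (p : Pt m) :
    swH p = (mob 1 5 0 0 1 p.2, mob 1 1 0 0 5 p.1) := by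
  unfold swH mob
  simp

private theorem ng_eq (μ : ℕ) {m : ℕ} (p : Pt m) :
    ng p = (mob μ 1 0 0 (-1) p.1, mob μ 1 0 0 (-1) p.2) := by
  unfold ng mob
  simp

private theorem ngsw_eq0 {m : ℕ} (p : Pt m) :
    ng (swH p) = (mob 0 5 0 0 (-1) p.2, mob 0 1 0 0 (-5) p.1) := by
  unfold ng swH mob
  simp

private theorem ngsw_eq1 {m : ℕ} (p : Pt m) :
    ng (swH p) = (mob 1 5 0 0 (-1) p.2, mob 1 1 0 0 (-5) p.1) := by
  unfold ng swH mob
  simp

private theorem cOH_eq {m : ℕ} (p : Pt m) :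
    cOH p = (mob 0 10 (-5) 5 (-17) p.2, mob 0 17 (-5) 5 (-10) p.1) := by
  unfold cOH
  rw [swH_eq0, trp_eq]
  exact Prod.ext (mm _ 1 _ _ _ _ _ _ _ _ _ _ _ _ (by norm_num) (by norm_num) (by norm_num) (by norm_num) (by norm_num) (by norm_num) (by norm_num) (by norm_num) _)
    (mm _ (-1) _ _ _ _ _ _ _ _ _ _ _ _ (by norm_num) (by norm_num) (by norm_num) (by norm_num) (by norm_num) (by norm_num) (by norm_num) (by norm_num) _)

private theorem r2H_eq {m : ℕ} (p : Pt m) :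
    r2H p = (mob 0 10 (-3) 5 (-10) p.1, mob 0 (-10) 5 (-3) 10 p.2) := rfl

private theorem r3H_eq {m : ℕ} (p : Pt m) :
    r3H p = (mob 0 15 (-5) 5 (-12) p.2, mob 0 12 (-5) 5 (-15) p.1) := by
  unfold r3H
  rw [ngsw_eq0, trp_eq]
  exact Prod.ext (mm _ 1 _ _ _ _ _ _ _ _ _ _ _ _ (by norm_num) (by norm_num) (by norm_num) (by norm_num) (by norm_num) (by norm_num) (by norm_num) (by norm_num) _)
    (mm _ 1 _ _ _ _ _ _ _ _ _ _ _ _ (by norm_num) (by norm_num) (by norm_num) (by norm_num) (by norm_num) (by norm_num) (by norm_num) (by norm_num) _)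

private theorem gOH_eq {m : ℕ} (p : Pt m) :
    gOH p = (mob 0 5 (-2) 1 (-3) p.2, mob 0 3 (-1) 2 (-5) p.1) := by
  unfold gOH
  rw [ngsw_eq0, trp_eq]
  exact Prod.ext (mm _ 5 _ _ _ _ _ _ _ _ _ _ _ _ (by norm_num) (by norm_num) (by norm_num) (by norm_num) (by norm_num) (by norm_num) (by norm_num) (by norm_num) _)
    (mm _ 5 _ _ _ _ _ _ _ _ _ _ _ _ (by norm_num) (by norm_num) (by norm_num) (by norm_num) (by norm_num) (by norm_num) (by norm_num) (by norm_num) _)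

private theorem c6H_eq {m : ℕ} (p : Pt m) :
    c6H p = (mob 1 10 (-5) 5 (-122) p.2, mob 1 122 (-5) 5 (-10) p.1) := by
  unfold c6H
  rw [swH_eq1, trp_eq]
  exact Prod.ext (mm _ 1 _ _ _ _ _ _ _ _ _ _ _ _ (by norm_num) (by norm_num) (by norm_num) (by norm_num) (by norm_num) (by norm_num) (by norm_num) (by norm_num) _)
    (mm _ (-1) _ _ _ _ _ _ _ _ _ _ _ _ (by norm_num) (by norm_num) (by norm_num) (by norm_num) (by norm_num) (by norm_num) (by norm_num) (by norm_num) _)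

private theorem c8H_eq {m : ℕ} (p : Pt m) :
    c8H p = (mob 1 20 (-5) 5 (-61) p.2, mob 1 61 (-5) 5 (-20) p.1) := by
  unfold c8H
  rw [swH_eq1, trp_eq]
  exact Prod.ext (mm _ 1 _ _ _ _ _ _ _ _ _ _ _ _ (by norm_num) (by norm_num) (by norm_num) (by norm_num) (by norm_num) (by norm_num) (by norm_num) (by norm_num) _)
    (mm _ (-1) _ _ _ _ _ _ _ _ _ _ _ _ (by norm_num) (by norm_num) (by norm_num) (by norm_num) (by norm_num) (by norm_num) (by norm_num) (by norm_num) _)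

private theorem d8H_eq {m : ℕ} (p : Pt m) :
    d8H p = (mob 1 30 (-7) 7 (-80) p.2, mob 1 80 (-7) 7 (-30) p.1) := by
  unfold d8H
  rw [swH_eq1, trp_eq]
  exact Prod.ext (mm _ 5 _ _ _ _ _ _ _ _ _ _ _ _ (by norm_num) (by norm_num) (by norm_num) (by norm_num) (by norm_num) (by norm_num) (by norm_num) (by norm_num) _)
    (mm _ (-5) _ _ _ _ _ _ _ _ _ _ _ _ (by norm_num) (by norm_num) (by norm_num) (by norm_num) (by norm_num) (by norm_num) (by norm_num) (by norm_num) _)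

private theorem c9H_eq {m : ℕ} (p : Pt m) :
    c9H p = (mob 1 190 (-15) 15 (-58) p.2, mob 1 58 (-15) 15 (-190) p.1) := by
  unfold c9H
  rw [swH_eq1, trp_eq]
  exact Prod.ext (mm _ 1 _ _ _ _ _ _ _ _ _ _ _ _ (by norm_num) (by norm_num) (by norm_num) (by norm_num) (by norm_num) (by norm_num) (by norm_num) (by norm_num) _)
    (mm _ (-1) _ _ _ _ _ _ _ _ _ _ _ _ (by norm_num) (by norm_num) (by norm_num) (by norm_num) (by norm_num) (by norm_num) (by norm_num) (by norm_num) _)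

private theorem d9H_eq {m : ℕ} (p : Pt m) :
    d9H p = (mob 1 40 (-3) 3 (-11) p.2, mob 1 11 (-3) 3 (-40) p.1) := by
  unfold d9H
  rw [swH_eq1, trp_eq]
  exact Prod.ext (mm _ 5 _ _ _ _ _ _ _ _ _ _ _ _ (by norm_num) (by norm_num) (by norm_num) (by norm_num) (by norm_num) (by norm_num) (by norm_num) (by norm_num) _)
    (mm _ (-5) _ _ _ _ _ _ _ _ _ _ _ _ (by norm_num) (by norm_num) (by norm_num) (by norm_num) (by norm_num) (by norm_num) (by norm_num) (by norm_num) _)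

private theorem cBH_eq {m : ℕ} (p : Pt m) :
    cBH p = (mob 1 20 (-7) 7 (-120) p.2, mob 1 120 (-7) 7 (-20) p.1) := by
  unfold cBH
  rw [swH_eq1, trp_eq]
  exact Prod.ext (mm _ 5 _ _ _ _ _ _ _ _ _ _ _ _ (by norm_num) (by norm_num) (by norm_num) (by norm_num) (by norm_num) (by norm_num) (by norm_num) (by norm_num) _)
    (mm _ (-5) _ _ _ _ _ _ _ _ _ _ _ _ (by norm_num) (by norm_num) (by norm_num) (by norm_num) (by norm_num) (by norm_num) (by norm_num) (by norm_num) _)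

private theorem cEH_eq {m : ℕ} (p : Pt m) :
    cEH p = (mob 1 5 (-2) 2 (-39) p.2, mob 1 39 (-2) 2 (-5) p.1) := by
  unfold cEH
  rw [swH_eq1, trp_eq]
  exact Prod.ext (mm _ 5 _ _ _ _ _ _ _ _ _ _ _ _ (by norm_num) (by norm_num) (by norm_num) (by norm_num) (by norm_num) (by norm_num) (by norm_num) (by norm_num) _)
    (mm _ (-5) _ _ _ _ _ _ _ _ _ _ _ _ (by norm_num) (by norm_num) (by norm_num) (by norm_num) (by norm_num) (by norm_num) (by norm_num) (by norm_num) _)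

private theorem rDH_eq {m : ℕ} (p : Pt m) :
    rDH p = (mob 1 5 (-1) 1 (-10) p.2, mob 1 10 (-1) 1 (-5) p.1) := by
  unfold rDH
  rw [ngsw_eq1, trp_eq]
  exact Prod.ext (mm _ 5 _ _ _ _ _ _ _ _ _ _ _ _ (by norm_num) (by norm_num) (by norm_num) (by norm_num) (by norm_num) (by norm_num) (by norm_num) (by norm_num) _)
    (mm _ 5 _ _ _ _ _ _ _ _ _ _ _ _ (by norm_num) (by norm_num) (by norm_num) (by norm_num) (by norm_num) (by norm_num) (by norm_num) (by norm_num) _)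

private theorem rAH_eq {m : ℕ} (p : Pt m) :
    rAH p = (mob 1 45 (-10) 10 (-109) p.2, mob 1 109 (-10) 10 (-45) p.1) := by
  unfold rAH
  rw [ngsw_eq1, trp_eq]
  exact Prod.ext (mm _ 1 _ _ _ _ _ _ _ _ _ _ _ _ (by norm_num) (by norm_num) (by norm_num) (by norm_num) (by norm_num) (by norm_num) (by norm_num) (by norm_num) _)
    (mm _ 1 _ _ _ _ _ _ _ _ _ _ _ _ (by norm_num) (by norm_num) (by norm_num) (by norm_num) (by norm_num) (by norm_num) (by norm_num) (by norm_num) _)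

private theorem rCH_eq {m : ℕ} (p : Pt m) :
    rCH p = (mob 1 15 (-5) 5 (-82) p.2, mob 1 82 (-5) 5 (-15) p.1) := by
  unfold rCH
  rw [ngsw_eq1, trp_eq]
  exact Prod.ext (mm _ 1 _ _ _ _ _ _ _ _ _ _ _ _ (by norm_num) (by norm_num) (by norm_num) (by norm_num) (by norm_num) (by norm_num) (by norm_num) (by norm_num) _)
    (mm _ 1 _ _ _ _ _ _ _ _ _ _ _ _ (by norm_num) (by norm_num) (by norm_num) (by norm_num) (by norm_num) (by norm_num) (by norm_num) (by norm_num) _)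

private theorem rHH_eq {m : ℕ} (p : Pt m) :
    rHH p = (mob 1 10 (-1) 1 (-5) p.2, mob 1 5 (-1) 1 (-10) p.1) := by
  unfold rHH
  rw [ngsw_eq1, trp_eq]
  exact Prod.ext (mm _ 5 _ _ _ _ _ _ _ _ _ _ _ _ (by norm_num) (by norm_num) (by norm_num) (by norm_num) (by norm_num) (by norm_num) (by norm_num) (by norm_num) _)
    (mm _ 5 _ _ _ _ _ _ _ _ _ _ _ _ (by norm_num) (by norm_num) (by norm_num) (by norm_num) (by norm_num) (by norm_num) (by norm_num) (by norm_num) _)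

private theorem g2H_eq {m : ℕ} (p : Pt m) :
    g2H p = (mob 1 55 (-20) 5 (-89) p.2, mob 1 89 (-5) 20 (-55) p.1) := by
  unfold g2H
  rw [swH_eq1, trp_eq]
  exact Prod.ext (mm _ 1 _ _ _ _ _ _ _ _ _ _ _ _ (by norm_num) (by norm_num) (by norm_num) (by norm_num) (by norm_num) (by norm_num) (by norm_num) (by norm_num) _)
    (mm _ (-1) _ _ _ _ _ _ _ _ _ _ _ _ (by norm_num) (by norm_num) (by norm_num) (by norm_num) (by norm_num) (by norm_num) (by norm_num) (by norm_num) _)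

private theorem g4H_eq {m : ℕ} (p : Pt m) :
    g4H p = (mob 1 65 (-4) 5 (-15) p.1, mob 1 (-15) 5 (-4) 65 p.2) := rfl

private theorem k4H_eq {m : ℕ} (p : Pt m) :
    k4H p = (mob 1 (-15) 4 (-5) 65 p.1, mob 1 65 (-5) 4 (-15) p.2) := rfl

private theorem g5H_eq {m : ℕ} (p : Pt m) :
    g5H p = (mob 1 20 (-9) 5 (-110) p.1, mob 1 (-110) 5 (-9) 20 p.2) := rfl

private theorem k5H_eq {m : ℕ} (p : Pt m) :
    k5H p = (mob 1 (-110) 9 (-5) 20 p.1, mob 1 20 (-5) 9 (-110) p.2) := rfl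

private theorem swsw {m : ℕ} (p : Pt m) : swH (swH p) = p := by
  rw [swH_eq0, swH_eq0]
  exact Prod.ext ((mm _ 5 _ _ _ _ _ _ _ _ 1 0 0 1 (by norm_num) (by norm_num) (by norm_num) (by norm_num) (by norm_num) (by norm_num) (by norm_num) (by norm_num) _).trans (mob_id _ _))
    ((mm _ 5 _ _ _ _ _ _ _ _ 1 0 0 1 (by norm_num) (by norm_num) (by norm_num) (by norm_num) (by norm_num) (by norm_num) (by norm_num) (by norm_num) _).trans (mob_id _ _))

private theorem cOH2 {m : ℕ} (p : Pt m) : cOH (cOH p) = p := by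
  rw [cOH_eq, cOH_eq]
  exact Prod.ext ((mm _ (-5) _ _ _ _ _ _ _ _ 1 0 0 1 (by norm_num) (by norm_num) (by norm_num) (by norm_num) (by norm_num) (by norm_num) (by norm_num) (by norm_num) _).trans (mob_id _ _))
    ((mm _ (-5) _ _ _ _ _ _ _ _ 1 0 0 1 (by norm_num) (by norm_num) (by norm_num) (by norm_num) (by norm_num) (by norm_num) (by norm_num) (by norm_num) _).trans (mob_id _ _))

private theorem r2H2 {m : ℕ} (p : Pt m) : r2H (r2H p) = p := by
  rw [r2H_eq, r2H_eq]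
  exact Prod.ext ((mm _ (-5) _ _ _ _ _ _ _ _ 1 0 0 1 (by norm_num) (by norm_num) (by norm_num) (by norm_num) (by norm_num) (by norm_num) (by norm_num) (by norm_num) _).trans (mob_id _ _))
    ((mm _ (-5) _ _ _ _ _ _ _ _ 1 0 0 1 (by norm_num) (by norm_num) (by norm_num) (by norm_num) (by norm_num) (by norm_num) (by norm_num) (by norm_num) _).trans (mob_id _ _))

private theorem r3H2 {m : ℕ} (p : Pt m) : r3H (r3H p) = p := by
  rw [r3H_eq, r3H_eq]
  exact Prod.ext ((mm _ 5 _ _ _ _ _ _ _ _ 1 0 0 1 (by norm_num) (by norm_num) (by norm_num) (by norm_num) (by norm_num) (by norm_num) (by norm_num) (by norm_num) _).trans (mob_id _ _))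
    ((mm _ 5 _ _ _ _ _ _ _ _ 1 0 0 1 (by norm_num) (by norm_num) (by norm_num) (by norm_num) (by norm_num) (by norm_num) (by norm_num) (by norm_num) _).trans (mob_id _ _))

private theorem c6H2 {m : ℕ} (p : Pt m) : c6H (c6H p) = p := by
  rw [c6H_eq, c6H_eq]
  exact Prod.ext ((mm _ (-5) _ _ _ _ _ _ _ _ 1 0 0 1 (by norm_num) (by norm_num) (by norm_num) (by norm_num) (by norm_num) (by norm_num) (by norm_num) (by norm_num) _).trans (mob_id _ _))
    ((mm _ (-5) _ _ _ _ _ _ _ _ 1 0 0 1 (by norm_num) (by norm_num) (by norm_num) (by norm_num) (by norm_num) (by norm_num) (by norm_num) (by norm_num) _).trans (mob_id _ _))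

private theorem c8H2 {m : ℕ} (p : Pt m) : c8H (c8H p) = p := by
  rw [c8H_eq, c8H_eq]
  exact Prod.ext ((mm _ (-5) _ _ _ _ _ _ _ _ 1 0 0 1 (by norm_num) (by norm_num) (by norm_num) (by norm_num) (by norm_num) (by norm_num) (by norm_num) (by norm_num) _).trans (mob_id _ _))
    ((mm _ (-5) _ _ _ _ _ _ _ _ 1 0 0 1 (by norm_num) (by norm_num) (by norm_num) (by norm_num) (by norm_num) (by norm_num) (by norm_num) (by norm_num) _).trans (mob_id _ _))

private theorem d8H2 {m : ℕ} (p : Pt m) : d8H (d8H p) = p := by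
  rw [d8H_eq, d8H_eq]
  exact Prod.ext ((mm _ (-1) _ _ _ _ _ _ _ _ 1 0 0 1 (by norm_num) (by norm_num) (by norm_num) (by norm_num) (by norm_num) (by norm_num) (by norm_num) (by norm_num) _).trans (mob_id _ _))
    ((mm _ (-1) _ _ _ _ _ _ _ _ 1 0 0 1 (by norm_num) (by norm_num) (by norm_num) (by norm_num) (by norm_num) (by norm_num) (by norm_num) (by norm_num) _).trans (mob_id _ _))

private theorem c9H2 {m : ℕ} (p : Pt m) : c9H (c9H p) = p := by
  rw [c9H_eq, c9H_eq]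
  exact Prod.ext ((mm _ (-5) _ _ _ _ _ _ _ _ 1 0 0 1 (by norm_num) (by norm_num) (by norm_num) (by norm_num) (by norm_num) (by norm_num) (by norm_num) (by norm_num) _).trans (mob_id _ _))
    ((mm _ (-5) _ _ _ _ _ _ _ _ 1 0 0 1 (by norm_num) (by norm_num) (by norm_num) (by norm_num) (by norm_num) (by norm_num) (by norm_num) (by norm_num) _).trans (mob_id _ _))

private theorem d9H2 {m : ℕ} (p : Pt m) : d9H (d9H p) = p := by
  rw [d9H_eq, d9H_eq]
  exact Prod.ext ((mm _ (-1) _ _ _ _ _ _ _ _ 1 0 0 1 (by norm_num) (by norm_num) (by norm_num) (by norm_num) (by norm_num) (by norm_num) (by norm_num) (by norm_num) _).trans (mob_id _ _))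
    ((mm _ (-1) _ _ _ _ _ _ _ _ 1 0 0 1 (by norm_num) (by norm_num) (by norm_num) (by norm_num) (by norm_num) (by norm_num) (by norm_num) (by norm_num) _).trans (mob_id _ _))

private theorem cBH2 {m : ℕ} (p : Pt m) : cBH (cBH p) = p := by
  rw [cBH_eq, cBH_eq]
  exact Prod.ext ((mm _ (-1) _ _ _ _ _ _ _ _ 1 0 0 1 (by norm_num) (by norm_num) (by norm_num) (by norm_num) (by norm_num) (by norm_num) (by norm_num) (by norm_num) _).trans (mob_id _ _))
    ((mm _ (-1) _ _ _ _ _ _ _ _ 1 0 0 1 (by norm_num) (by norm_num) (by norm_num) (by norm_num) (by norm_num) (by norm_num) (by norm_num) (by norm_num) _).trans (mob_id _ _))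

private theorem cEH2 {m : ℕ} (p : Pt m) : cEH (cEH p) = p := by
  rw [cEH_eq, cEH_eq]
  exact Prod.ext ((mm _ (-1) _ _ _ _ _ _ _ _ 1 0 0 1 (by norm_num) (by norm_num) (by norm_num) (by norm_num) (by norm_num) (by norm_num) (by norm_num) (by norm_num) _).trans (mob_id _ _))
    ((mm _ (-1) _ _ _ _ _ _ _ _ 1 0 0 1 (by norm_num) (by norm_num) (by norm_num) (by norm_num) (by norm_num) (by norm_num) (by norm_num) (by norm_num) _).trans (mob_id _ _))

private theorem rDH2 {m : ℕ} (p : Pt m) : rDH (rDH p) = p := by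
  rw [rDH_eq, rDH_eq]
  exact Prod.ext ((mm _ 1 _ _ _ _ _ _ _ _ 1 0 0 1 (by norm_num) (by norm_num) (by norm_num) (by norm_num) (by norm_num) (by norm_num) (by norm_num) (by norm_num) _).trans (mob_id _ _))
    ((mm _ 1 _ _ _ _ _ _ _ _ 1 0 0 1 (by norm_num) (by norm_num) (by norm_num) (by norm_num) (by norm_num) (by norm_num) (by norm_num) (by norm_num) _).trans (mob_id _ _))

private theorem rAH2 {m : ℕ} (p : Pt m) : rAH (rAH p) = p := by
  rw [rAH_eq, rAH_eq]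
  exact Prod.ext ((mm _ 5 _ _ _ _ _ _ _ _ 1 0 0 1 (by norm_num) (by norm_num) (by norm_num) (by norm_num) (by norm_num) (by norm_num) (by norm_num) (by norm_num) _).trans (mob_id _ _))
    ((mm _ 5 _ _ _ _ _ _ _ _ 1 0 0 1 (by norm_num) (by norm_num) (by norm_num) (by norm_num) (by norm_num) (by norm_num) (by norm_num) (by norm_num) _).trans (mob_id _ _))

private theorem rCH2 {m : ℕ} (p : Pt m) : rCH (rCH p) = p := by
  rw [rCH_eq, rCH_eq]
  exact Prod.ext ((mm _ 5 _ _ _ _ _ _ _ _ 1 0 0 1 (by norm_num) (by norm_num) (by norm_num) (by norm_num) (by norm_num) (by norm_num) (by norm_num) (by norm_num) _).trans (mob_id _ _))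
    ((mm _ 5 _ _ _ _ _ _ _ _ 1 0 0 1 (by norm_num) (by norm_num) (by norm_num) (by norm_num) (by norm_num) (by norm_num) (by norm_num) (by norm_num) _).trans (mob_id _ _))

private theorem rHH2 {m : ℕ} (p : Pt m) : rHH (rHH p) = p := by
  rw [rHH_eq, rHH_eq]
  exact Prod.ext ((mm _ 1 _ _ _ _ _ _ _ _ 1 0 0 1 (by norm_num) (by norm_num) (by norm_num) (by norm_num) (by norm_num) (by norm_num) (by norm_num) (by norm_num) _).trans (mob_id _ _))
    ((mm _ 1 _ _ _ _ _ _ _ _ 1 0 0 1 (by norm_num) (by norm_num) (by norm_num) (by norm_num) (by norm_num) (by norm_num) (by norm_num) (by norm_num) _).trans (mob_id _ _))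

private theorem dRcO {m : ℕ} (p : Pt m) :
    dR 0 (cOH p) = (mob 0 10 (-5) 5 (-18) p.2, mob 0 18 (-5) 5 (-10) p.1) := by
  rw [cOH_eq, dR_eq 0]
  exact Prod.ext (mm _ 1 _ _ _ _ _ _ _ _ _ _ _ _ (by norm_num) (by norm_num) (by norm_num) (by norm_num) (by norm_num) (by norm_num) (by norm_num) (by norm_num) _)
    (mm _ (-1) _ _ _ _ _ _ _ _ _ _ _ _ (by norm_num) (by norm_num) (by norm_num) (by norm_num) (by norm_num) (by norm_num) (by norm_num) (by norm_num) _)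

private theorem cOdR {m : ℕ} (p : Pt m) :
    cOH (dR 0 p) = (mob 0 10 (-5) 5 (-18) p.2, mob 0 18 (-5) 5 (-10) p.1) := by
  rw [dR_eq 0, cOH_eq]
  exact Prod.ext (mm _ 1 _ _ _ _ _ _ _ _ _ _ _ _ (by norm_num) (by norm_num) (by norm_num) (by norm_num) (by norm_num) (by norm_num) (by norm_num) (by norm_num) _)
    (mm _ (-1) _ _ _ _ _ _ _ _ _ _ _ _ (by norm_num) (by norm_num) (by norm_num) (by norm_num) (by norm_num) (by norm_num) (by norm_num) (by norm_num) _)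

private theorem gOsw {m : ℕ} (p : Pt m) :
    gOH (swH p) = (mob 0 5 (-2) 5 (-15) p.1, mob 0 15 (-5) 2 (-5) p.2) := by
  rw [swH_eq0, gOH_eq]
  exact Prod.ext (mm _ 1 _ _ _ _ _ _ _ _ _ _ _ _ (by norm_num) (by norm_num) (by norm_num) (by norm_num) (by norm_num) (by norm_num) (by norm_num) (by norm_num) _)
    (mm _ 1 _ _ _ _ _ _ _ _ _ _ _ _ (by norm_num) (by norm_num) (by norm_num) (by norm_num) (by norm_num) (by norm_num) (by norm_num) (by norm_num) _)

private theorem cOgO {m : ℕ} (p : Pt m) :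
    cOH (gOH p) = (mob 0 5 (-2) 5 (-15) p.1, mob 0 15 (-5) 2 (-5) p.2) := by
  rw [gOH_eq, cOH_eq]
  exact Prod.ext (mm _ (-1) _ _ _ _ _ _ _ _ _ _ _ _ (by norm_num) (by norm_num) (by norm_num) (by norm_num) (by norm_num) (by norm_num) (by norm_num) (by norm_num) _)
    (mm _ 1 _ _ _ _ _ _ _ _ _ _ _ _ (by norm_num) (by norm_num) (by norm_num) (by norm_num) (by norm_num) (by norm_num) (by norm_num) (by norm_num) _)

private theorem r3gO {m : ℕ} (p : Pt m) :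
    r3H (gOH p) = (mob 0 10 (-3) 5 (-10) p.1, mob 0 (-10) 5 (-3) 10 p.2) := by
  rw [gOH_eq, r3H_eq]
  exact Prod.ext (mm _ 1 _ _ _ _ _ _ _ _ _ _ _ _ (by norm_num) (by norm_num) (by norm_num) (by norm_num) (by norm_num) (by norm_num) (by norm_num) (by norm_num) _)
    (mm _ 1 _ _ _ _ _ _ _ _ _ _ _ _ (by norm_num) (by norm_num) (by norm_num) (by norm_num) (by norm_num) (by norm_num) (by norm_num) (by norm_num) _)

private theorem dRc6 {m : ℕ} (p : Pt m) :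
    dR 1 (c6H p) = (mob 1 10 (-5) 5 (-123) p.2, mob 1 123 (-5) 5 (-10) p.1) := by
  rw [c6H_eq, dR_eq 1]
  exact Prod.ext (mm _ 1 _ _ _ _ _ _ _ _ _ _ _ _ (by norm_num) (by norm_num) (by norm_num) (by norm_num) (by norm_num) (by norm_num) (by norm_num) (by norm_num) _)
    (mm _ (-1) _ _ _ _ _ _ _ _ _ _ _ _ (by norm_num) (by norm_num) (by norm_num) (by norm_num) (by norm_num) (by norm_num) (by norm_num) (by norm_num) _)

private theorem c6dR {m : ℕ} (p : Pt m) :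
    c6H (dR 1 p) = (mob 1 10 (-5) 5 (-123) p.2, mob 1 123 (-5) 5 (-10) p.1) := by
  rw [dR_eq 1, c6H_eq]
  exact Prod.ext (mm _ 1 _ _ _ _ _ _ _ _ _ _ _ _ (by norm_num) (by norm_num) (by norm_num) (by norm_num) (by norm_num) (by norm_num) (by norm_num) (by norm_num) _)
    (mm _ (-1) _ _ _ _ _ _ _ _ _ _ _ _ (by norm_num) (by norm_num) (by norm_num) (by norm_num) (by norm_num) (by norm_num) (by norm_num) (by norm_num) _)

private theorem c8d8 {m : ℕ} (p : Pt m) :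
    c8H (d8H p) = (mob 1 115 (-27) 10 (-115) p.1, mob 1 115 (-10) 27 (-115) p.2) := by
  rw [d8H_eq, c8H_eq]
  exact Prod.ext (mm _ (-1) _ _ _ _ _ _ _ _ _ _ _ _ (by norm_num) (by norm_num) (by norm_num) (by norm_num) (by norm_num) (by norm_num) (by norm_num) (by norm_num) _)
    (mm _ 1 _ _ _ _ _ _ _ _ _ _ _ _ (by norm_num) (by norm_num) (by norm_num) (by norm_num) (by norm_num) (by norm_num) (by norm_num) (by norm_num) _)

private theorem d8c8 {m : ℕ} (p : Pt m) :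
    d8H (c8H p) = (mob 1 115 (-27) 10 (-115) p.1, mob 1 115 (-10) 27 (-115) p.2) := by
  rw [c8H_eq, d8H_eq]
  exact Prod.ext (mm _ 1 _ _ _ _ _ _ _ _ _ _ _ _ (by norm_num) (by norm_num) (by norm_num) (by norm_num) (by norm_num) (by norm_num) (by norm_num) (by norm_num) _)
    (mm _ (-1) _ _ _ _ _ _ _ _ _ _ _ _ (by norm_num) (by norm_num) (by norm_num) (by norm_num) (by norm_num) (by norm_num) (by norm_num) (by norm_num) _)

private theorem c9d9 {m : ℕ} (p : Pt m) :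
    c9H (d9H p) = (mob 1 115 (-9) 30 (-115) p.1, mob 1 115 (-30) 9 (-115) p.2) := by
  rw [d9H_eq, c9H_eq]
  exact Prod.ext (mm _ (-1) _ _ _ _ _ _ _ _ _ _ _ _ (by norm_num) (by norm_num) (by norm_num) (by norm_num) (by norm_num) (by norm_num) (by norm_num) (by norm_num) _)
    (mm _ 1 _ _ _ _ _ _ _ _ _ _ _ _ (by norm_num) (by norm_num) (by norm_num) (by norm_num) (by norm_num) (by norm_num) (by norm_num) (by norm_num) _)

private theorem d9c9 {m : ℕ} (p : Pt m) :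
    d9H (c9H p) = (mob 1 115 (-9) 30 (-115) p.1, mob 1 115 (-30) 9 (-115) p.2) := by
  rw [c9H_eq, d9H_eq]
  exact Prod.ext (mm _ 1 _ _ _ _ _ _ _ _ _ _ _ _ (by norm_num) (by norm_num) (by norm_num) (by norm_num) (by norm_num) (by norm_num) (by norm_num) (by norm_num) _)
    (mm _ (-1) _ _ _ _ _ _ _ _ _ _ _ _ (by norm_num) (by norm_num) (by norm_num) (by norm_num) (by norm_num) (by norm_num) (by norm_num) (by norm_num) _)

private theorem g4k4 {m : ℕ} (p : Pt m) : g4H (k4H p) = p := by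
  rw [k4H_eq, g4H_eq]
  exact Prod.ext ((mm _ 5 _ _ _ _ _ _ _ _ 1 0 0 1 (by norm_num) (by norm_num) (by norm_num) (by norm_num) (by norm_num) (by norm_num) (by norm_num) (by norm_num) _).trans (mob_id _ _))
    ((mm _ 5 _ _ _ _ _ _ _ _ 1 0 0 1 (by norm_num) (by norm_num) (by norm_num) (by norm_num) (by norm_num) (by norm_num) (by norm_num) (by norm_num) _).trans (mob_id _ _))

private theorem k4g4 {m : ℕ} (p : Pt m) : k4H (g4H p) = p := by
  rw [g4H_eq, k4H_eq]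
  exact Prod.ext ((mm _ 5 _ _ _ _ _ _ _ _ 1 0 0 1 (by norm_num) (by norm_num) (by norm_num) (by norm_num) (by norm_num) (by norm_num) (by norm_num) (by norm_num) _).trans (mob_id _ _))
    ((mm _ 5 _ _ _ _ _ _ _ _ 1 0 0 1 (by norm_num) (by norm_num) (by norm_num) (by norm_num) (by norm_num) (by norm_num) (by norm_num) (by norm_num) _).trans (mob_id _ _))

private theorem g4c8 {m : ℕ} (p : Pt m) :
    g4H (c8H p) = (mob 1 15 (-1) 4 (-13) p.2, mob 1 13 (-4) 1 (-15) p.1) := by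
  rw [c8H_eq, g4H_eq]
  exact Prod.ext (mm _ 5 _ _ _ _ _ _ _ _ _ _ _ _ (by norm_num) (by norm_num) (by norm_num) (by norm_num) (by norm_num) (by norm_num) (by norm_num) (by norm_num) _)
    (mm _ 5 _ _ _ _ _ _ _ _ _ _ _ _ (by norm_num) (by norm_num) (by norm_num) (by norm_num) (by norm_num) (by norm_num) (by norm_num) (by norm_num) _)

private theorem swg4 {m : ℕ} (p : Pt m) :
    swH (g4H p) = (mob 1 15 (-1) 4 (-13) p.2, mob 1 13 (-4) 1 (-15) p.1) := by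
  rw [g4H_eq, swH_eq1]
  exact Prod.ext (mm _ (-5) _ _ _ _ _ _ _ _ _ _ _ _ (by norm_num) (by norm_num) (by norm_num) (by norm_num) (by norm_num) (by norm_num) (by norm_num) (by norm_num) _)
    (mm _ 5 _ _ _ _ _ _ _ _ _ _ _ _ (by norm_num) (by norm_num) (by norm_num) (by norm_num) (by norm_num) (by norm_num) (by norm_num) (by norm_num) _)

private theorem g5k5 {m : ℕ} (p : Pt m) : g5H (k5H p) = p := by
  rw [k5H_eq, g5H_eq]
  exact Prod.ext ((mm _ 5 _ _ _ _ _ _ _ _ 1 0 0 1 (by norm_num) (by norm_num) (by norm_num) (by norm_num) (by norm_num) (by norm_num) (by norm_num) (by norm_num) _).trans (mob_id _ _))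
    ((mm _ 5 _ _ _ _ _ _ _ _ 1 0 0 1 (by norm_num) (by norm_num) (by norm_num) (by norm_num) (by norm_num) (by norm_num) (by norm_num) (by norm_num) _).trans (mob_id _ _))

private theorem k5g5 {m : ℕ} (p : Pt m) : k5H (g5H p) = p := by
  rw [g5H_eq, k5H_eq]
  exact Prod.ext ((mm _ 5 _ _ _ _ _ _ _ _ 1 0 0 1 (by norm_num) (by norm_num) (by norm_num) (by norm_num) (by norm_num) (by norm_num) (by norm_num) (by norm_num) _).trans (mob_id _ _))
    ((mm _ 5 _ _ _ _ _ _ _ _ 1 0 0 1 (by norm_num) (by norm_num) (by norm_num) (by norm_num) (by norm_num) (by norm_num) (by norm_num) (by norm_num) _).trans (mob_id _ _))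

private theorem g5c9 {m : ℕ} (p : Pt m) :
    g5H (c9H p) = (mob 1 25 (-12) 2 (-47) p.2, mob 1 47 (-2) 12 (-25) p.1) := by
  rw [c9H_eq, g5H_eq]
  exact Prod.ext (mm _ 5 _ _ _ _ _ _ _ _ _ _ _ _ (by norm_num) (by norm_num) (by norm_num) (by norm_num) (by norm_num) (by norm_num) (by norm_num) (by norm_num) _)
    (mm _ 5 _ _ _ _ _ _ _ _ _ _ _ _ (by norm_num) (by norm_num) (by norm_num) (by norm_num) (by norm_num) (by norm_num) (by norm_num) (by norm_num) _)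

private theorem c6g5 {m : ℕ} (p : Pt m) :
    c6H (g5H p) = (mob 1 25 (-12) 2 (-47) p.2, mob 1 47 (-2) 12 (-25) p.1) := by
  rw [g5H_eq, c6H_eq]
  exact Prod.ext (mm _ 5 _ _ _ _ _ _ _ _ _ _ _ _ (by norm_num) (by norm_num) (by norm_num) (by norm_num) (by norm_num) (by norm_num) (by norm_num) (by norm_num) _)
    (mm _ 5 _ _ _ _ _ _ _ _ _ _ _ _ (by norm_num) (by norm_num) (by norm_num) (by norm_num) (by norm_num) (by norm_num) (by norm_num) (by norm_num) _)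

/-- TYP. -/
theorem hTyp : HTyp := by
  intro m
  refine ⟨⟨⟨?_, swsw, ?_⟩,
    (ty0 _ 0 6 6 _ _ _ _ _ _ _ _ (by norm_num) (by norm_num) (by norm_num) (by norm_num) (by norm_num) (by norm_num) (by norm_num) (by norm_num) (ng_eq 0)),
      (ty1 _ 1 3 5 _ _ _ _ _ _ _ _ (by norm_num) (by norm_num) (by norm_num) (by norm_num) (by norm_num) (by norm_num) swH_eq1),
      (ty1 _ 1 4 2 _ _ _ _ _ _ _ _ (by norm_num) (by norm_num) (by norm_num) (by norm_num) (by norm_num) (by norm_num) ngsw_eq1)⟩,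
    ⟨⟨dRdR 0, cOH2, fun p => (dRcO p).trans (cOdR p).symm⟩,
    (ty0 _ 0 6 6 _ _ _ _ _ _ _ _ (by norm_num) (by norm_num) (by norm_num) (by norm_num) (by norm_num) (by norm_num) (by norm_num) (by norm_num) (dR_eq 0)),
      (ty1 _ 0 6 6 _ _ _ _ _ _ _ _ (by norm_num) (by norm_num) (by norm_num) (by norm_num) (by norm_num) (by norm_num) cOH_eq),
      (ty1 _ 0 1 1 _ _ _ _ _ _ _ _ (by norm_num) (by norm_num) (by norm_num) (by norm_num) (by norm_num) (by norm_num) dRcO)⟩,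
    ⟨⟨r2H2, (ty0 _ 0 6 6 _ _ _ _ _ _ _ _ (by norm_num) (by norm_num) (by norm_num) (by norm_num) (by norm_num) (by norm_num) (by norm_num) (by norm_num) r2H_eq)⟩,
    ⟨r3H2, (ty1 _ 0 2 4 _ _ _ _ _ _ _ _ (by norm_num) (by norm_num) (by norm_num) (by norm_num) (by norm_num) (by norm_num) r3H_eq)⟩⟩,
    ⟨(ty1 _ 0 5 3 _ _ _ _ _ _ _ _ (by norm_num) (by norm_num) (by norm_num) (by norm_num) (by norm_num) (by norm_num) gOH_eq), fun p => (gOsw p).trans (cOgO p).symm, fun p => (r3gO p).trans (r2H_eq p).symm⟩,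
    ⟨⟨dRdR 1, c6H2, fun p => (dRc6 p).trans (c6dR p).symm⟩,
    (ty0 _ 1 6 6 _ _ _ _ _ _ _ _ (by norm_num) (by norm_num) (by norm_num) (by norm_num) (by norm_num) (by norm_num) (by norm_num) (by norm_num) (dR_eq 1)),
      (ty1 _ 1 6 6 _ _ _ _ _ _ _ _ (by norm_num) (by norm_num) (by norm_num) (by norm_num) (by norm_num) (by norm_num) c6H_eq),
      (ty1 _ 1 1 1 _ _ _ _ _ _ _ _ (by norm_num) (by norm_num) (by norm_num) (by norm_num) (by norm_num) (by norm_num) dRc6)⟩,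
    ⟨⟨c8H2, d8H2, fun p => (c8d8 p).trans (d8c8 p).symm⟩,
    (ty1 _ 1 5 3 _ _ _ _ _ _ _ _ (by norm_num) (by norm_num) (by norm_num) (by norm_num) (by norm_num) (by norm_num) c8H_eq),
      (ty1 _ 1 2 4 _ _ _ _ _ _ _ _ (by norm_num) (by norm_num) (by norm_num) (by norm_num) (by norm_num) (by norm_num) d8H_eq),
      (ty0 _ 1 6 6 _ _ _ _ _ _ _ _ (by norm_num) (by norm_num) (by norm_num) (by norm_num) (by norm_num) (by norm_num) (by norm_num) (by norm_num) c8d8)⟩,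
    ⟨⟨c9H2, d9H2, fun p => (c9d9 p).trans (d9c9 p).symm⟩,
    (ty1 _ 1 5 3 _ _ _ _ _ _ _ _ (by norm_num) (by norm_num) (by norm_num) (by norm_num) (by norm_num) (by norm_num) c9H_eq),
      (ty1 _ 1 2 4 _ _ _ _ _ _ _ _ (by norm_num) (by norm_num) (by norm_num) (by norm_num) (by norm_num) (by norm_num) d9H_eq),
      (ty0 _ 1 6 6 _ _ _ _ _ _ _ _ (by norm_num) (by norm_num) (by norm_num) (by norm_num) (by norm_num) (by norm_num) (by norm_num) (by norm_num) c9d9)⟩,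
    ⟨⟨cBH2, (ty1 _ 1 1 1 _ _ _ _ _ _ _ _ (by norm_num) (by norm_num) (by norm_num) (by norm_num) (by norm_num) (by norm_num) cBH_eq)⟩,
    ⟨cEH2, (ty1 _ 1 2 4 _ _ _ _ _ _ _ _ (by norm_num) (by norm_num) (by norm_num) (by norm_num) (by norm_num) (by norm_num) cEH_eq)⟩,
    ⟨rDH2, (ty1 _ 1 5 3 _ _ _ _ _ _ _ _ (by norm_num) (by norm_num) (by norm_num) (by norm_num) (by norm_num) (by norm_num) rDH_eq)⟩,
    ⟨rAH2, (ty1 _ 1 1 1 _ _ _ _ _ _ _ _ (by norm_num) (by norm_num) (by norm_num) (by norm_num) (by norm_num) (by norm_num) rAH_eq)⟩,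
    ⟨rCH2, (ty1 _ 1 2 4 _ _ _ _ _ _ _ _ (by norm_num) (by norm_num) (by norm_num) (by norm_num) (by norm_num) (by norm_num) rCH_eq)⟩,
    ⟨rHH2, (ty1 _ 1 3 5 _ _ _ _ _ _ _ _ (by norm_num) (by norm_num) (by norm_num) (by norm_num) (by norm_num) (by norm_num) rHH_eq)⟩⟩,
    (ty1 _ 1 5 3 _ _ _ _ _ _ _ _ (by norm_num) (by norm_num) (by norm_num) (by norm_num) (by norm_num) (by norm_num) g2H_eq), ⟨⟨(ty0 _ 1 3 5 _ _ _ _ _ _ _ _ (by norm_num) (by norm_num) (by norm_num) (by norm_num) (by norm_num) (by norm_num) (by norm_num) (by norm_num) g4H_eq),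
      (ty0 _ 1 5 3 _ _ _ _ _ _ _ _ (by norm_num) (by norm_num) (by norm_num) (by norm_num) (by norm_num) (by norm_num) (by norm_num) (by norm_num) k4H_eq)⟩,
    g4k4, k4g4, fun p => (g4c8 p).trans (swg4 p).symm⟩,
    ⟨⟨(ty0 _ 1 5 3 _ _ _ _ _ _ _ _ (by norm_num) (by norm_num) (by norm_num) (by norm_num) (by norm_num) (by norm_num) (by norm_num) (by norm_num) g5H_eq),
      (ty0 _ 1 3 5 _ _ _ _ _ _ _ _ (by norm_num) (by norm_num) (by norm_num) (by norm_num) (by norm_num) (by norm_num) (by norm_num) (by norm_num) k5H_eq)⟩,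
    g5k5, k5g5, fun p => (g5c9 p).trans (c6g5 p).symm⟩⟩
  · intro p
    simp [ng]
  · intro p
    simp [ng, swH]

end Pool.Agent.Helper99.Q5P7
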